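import Mathlib

/-! Cutting down the size of an abelian group which carries a representation of a lattice. -/

set_option autoImplicit false

namespace Pool.Agent.N865.FM

universe v

section

/-- terms -/
inductive Tm (L : Type) : Type
  | zero : Tm L
  | add : Tm L → Tm L → Tm L
  | neg : Tm L → Tm L
  | wit : L → L → Tm L
  | dec : L → L → Tm L → Tm L

variable {L : Type} [Lattice L] {B : Type v} [AddCommGroup B] (g : LatticeHom L (AddSubgroup B))

open Classical in
/-- evaluation of the terms -/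
noncomputable def ev : Tm L → B
  | Tm.zero => 0
  | Tm.add s t => ev s + ev t
  | Tm.neg s => - ev s
  | Tm.wit x y => if h : ∃ b, b ∈ g x ∧ b ∉ g y then h.choose else 0
  | Tm.dec x y t => if h : ∃ b, b ∈ g x ∧ ev t - b ∈ g y then h.choose else 0

/-- the range of the evaluation -/
noncomputable def rg : AddSubgroup B where
  carrier := Set.range (ev g)
  zero_mem' := ⟨Tm.zero, rfl⟩
  add_mem' := by
    rintro _ _ ⟨s, rfl⟩ ⟨t, rfl⟩
    exact ⟨Tm.add s t, rfl⟩
  neg_mem' := by
    rintro _ ⟨s, rfl⟩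
    exact ⟨Tm.neg s, rfl⟩

instance : Small.{0} (rg g) :=
  inferInstanceAs (Small.{0} (Set.range (ev g)))

theorem wit_spec {x y : L} (h : ¬ g x ≤ g y) : ∃ b ∈ rg g, b ∈ g x ∧ b ∉ g y := by
  have h1 : ∃ b, b ∈ g x ∧ b ∉ g y := by
    by_contra hh
    push Not at hh
    exact h hh
  refine ⟨ev g (Tm.wit x y), ⟨_, rfl⟩, ?_⟩
  unfold ev
  rw [dif_pos h1]
  exact h1.choose_spec

theorem dec_spec {x y : L} {b : B} (hb : b ∈ rg g) (h : b ∈ g x ⊔ g y) :
    ∃ c ∈ rg g, c ∈ g x ∧ b - c ∈ g y := by
  obtain ⟨t, rfl⟩ := hb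
  have h1 : ∃ c, c ∈ g x ∧ ev g t - c ∈ g y := by
    obtain ⟨c, hc, d, hd, hcd⟩ := AddSubgroup.mem_sup.mp h
    exact ⟨c, hc, by rw [← hcd]; simpa using hd⟩
  refine ⟨ev g (Tm.dec x y t), ⟨_, rfl⟩, ?_⟩
  rw [ev, dif_pos h1]
  exact h1.choose_spec

/-- the restricted representation -/
noncomputable def res : LatticeHom L (AddSubgroup (Shrink.{0} (rg g))) where
  toFun x := (g x).comap ((rg g).subtype.comp (Shrink.addEquiv (α := rg g)).toAddMonoidHom)
  map_sup' x y := by
    apply le_antisymm
    · intro b hb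
      rw [AddSubgroup.mem_comap, SupHomClass.map_sup] at hb
      set e := (Shrink.addEquiv (α := rg g)) with he
      obtain ⟨c, hc, hcx, hcy⟩ := dec_spec g (e b).2 hb
      rw [AddSubgroup.mem_sup]
      refine ⟨e.symm ⟨c, hc⟩, ?_, b - e.symm ⟨c, hc⟩, ?_, by abel⟩
      · rw [AddSubgroup.mem_comap]
        simpa using hcx
      · rw [AddSubgroup.mem_comap]
        simpa using hcy
    · rw [SupHomClass.map_sup]
      exact sup_le (AddSubgroup.comap_mono le_sup_left) (AddSubgroup.comap_mono le_sup_right)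
  map_inf' x y := by
    rw [InfHomClass.map_inf, AddSubgroup.comap_inf]

theorem res_injective (hg : Function.Injective g) : Function.Injective (res g) := by
  have key : ∀ x y, res g x = res g y → g x ≤ g y := by
    intro x y hxy
    by_contra h
    obtain ⟨b, hb, hbx, hby⟩ := wit_spec g h
    set e := (Shrink.addEquiv (α := rg g)) with he
    have h1 : e.symm ⟨b, hb⟩ ∈ res g x := by
      change (rg g).subtype (e (e.symm ⟨b, hb⟩)) ∈ g x
      simpa using hbx
    rw [hxy] at h1
    have h2 : (rg g).subtype (e (e.symm ⟨b, hb⟩)) ∈ g y := h1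
    apply hby
    simpa using h2
  intro x y hxy
  exact hg (le_antisymm (key x y hxy) (key y x hxy.symm))

end

theorem cut {L : Type} [Lattice L] {B : Type v} [AddCommGroup B]
    (g : LatticeHom L (AddSubgroup B)) (hg : Function.Injective g) :
    ∃ (B : Type) (_ : AddCommGroup B), ∃ g : LatticeHom L (AddSubgroup B),
      Function.Injective g :=
  ⟨Shrink.{0} (rg g), inferInstance, res g, res_injective g hg⟩

end Pool.Agent.N865.FM
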