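import Mathlib
import Pool.Agent.N865.FM.Cut

/-! The dual of a subgroup lattice of an abelian group embeds in a subgroup lattice of an abelian group. -/

set_option autoImplicit false

namespace Pool.Agent.N865.FM

open CategoryTheory CategoryTheory.Abelian CategoryTheory.Limits Opposite

noncomputable section

/-- the opposite of the category of abelian groups -/
abbrev CC : Type 1 := (ModuleCat.{0} ℤ)ᵒᵖ

/-- the embedding -/
abbrev FF : CC ⥤ ModuleCat.{1} (FreydMitchell.EmbeddingRing CC) := FreydMitchell.functor CC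

/-- the group attached to `M` -/
abbrev GO (M : Type) [AddCommGroup M] : Type 1 := FF.obj (op (ModuleCat.of ℤ M))

/-- the homomorphism attached to `f` -/
def GM {M N : Type} [AddCommGroup M] [AddCommGroup N] (f : M →ₗ[ℤ] N) :
    GO N →ₗ[FreydMitchell.EmbeddingRing CC] GO M :=
  (FF.map (ModuleCat.ofHom f).op).hom

variable {M N P : Type} [AddCommGroup M] [AddCommGroup N] [AddCommGroup P]

theorem GM_comp (g : N →ₗ[ℤ] P) (f : M →ₗ[ℤ] N) (x : GO P) : GM (g ∘ₗ f) x = GM f (GM g x) := by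
  unfold GM
  rw [ModuleCat.ofHom_comp, op_comp, FF.map_comp]
  rfl

theorem GM_id (x : GO M) : GM (LinearMap.id : M →ₗ[ℤ] M) x = x := by
  unfold GM
  rw [ModuleCat.ofHom_id, op_id, FF.map_id]
  rfl

theorem GM_surj {f : M →ₗ[ℤ] N} (hf : Function.Surjective f) : Function.Injective (GM f) := by
  have h1 : Epi (ModuleCat.ofHom f) := (ModuleCat.epi_iff_surjective _).mpr hf
  have h2 : Mono (FF.map (ModuleCat.ofHom f).op) := inferInstance
  exact (ModuleCat.mono_iff_injective _).mp h2

theorem GM_inj {f : M →ₗ[ℤ] N} (hf : Function.Injective f) : Function.Surjective (GM f) := by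
  have h1 : Mono (ModuleCat.ofHom f) := (ModuleCat.mono_iff_injective _).mpr hf
  have h2 : Epi (FF.map (ModuleCat.ofHom f).op) := inferInstance
  exact (ModuleCat.epi_iff_surjective _).mp h2

instance : FF.Additive := Functor.additive_of_preserves_binary_products FF

theorem GM_add (f g : M →ₗ[ℤ] N) (x : GO N) : GM (f + g) x = GM f x + GM g x := by
  unfold GM
  rw [ModuleCat.ofHom_add, op_add, FF.map_add]
  rfl

theorem GM_zero_iff (f : M →ₗ[ℤ] N) : (∀ x, GM f x = 0) ↔ f = 0 := by
  constructor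
  · intro h
    have h1 : FF.map (ModuleCat.ofHom f).op = FF.map 0 := by
      rw [FF.map_zero]
      ext x
      exact h x
    have h2 := FF.map_injective h1
    have h3 : ModuleCat.ofHom f = 0 := by
      have := congrArg Quiver.Hom.unop h2
      simpa using this
    ext x
    have h4 : (ModuleCat.ofHom f).hom x = (0 : ModuleCat.of ℤ M ⟶ ModuleCat.of ℤ N).hom x := by
      rw [h3]
    simpa using h4
  · rintro rfl x
    unfold GM
    have : (ModuleCat.ofHom (0 : M →ₗ[ℤ] N)).op = 0 := rfl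
    rw [this, FF.map_zero]
    rfl

/-- exactness -/
theorem GM_exact {f : M →ₗ[ℤ] N} {g : N →ₗ[ℤ] P} (hfg : Function.Exact f g) (x : GO N) :
    GM f x = 0 ↔ ∃ y, GM g y = x := by
  have hz : g ∘ₗ f = 0 := by
    ext x
    exact (hfg _).mpr ⟨x, rfl⟩
  let S : ShortComplex (ModuleCat.{0} ℤ) := ShortComplex.mk (ModuleCat.ofHom f) (ModuleCat.ofHom g)
    (by rw [← ModuleCat.ofHom_comp, hz]; rfl)
  have hS : S.Exact := by
    rw [ShortComplex.ShortExact.moduleCat_exact_iff_function_exact]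
    exact hfg
  have h2 : S.op.Exact := hS.op
  have h3 : (S.op.map FF).Exact := h2.map FF
  rw [ShortComplex.ShortExact.moduleCat_exact_iff_function_exact] at h3
  exact h3 x

theorem pair_zero {x : GO (M × N)} (h1 : GM (LinearMap.inl ℤ M N) x = 0)
    (h2 : GM (LinearMap.inr ℤ M N) x = 0) : x = 0 := by
  have h3 : (LinearMap.id : M × N →ₗ[ℤ] M × N) =
      LinearMap.inl ℤ M N ∘ₗ LinearMap.fst ℤ M N + LinearMap.inr ℤ M N ∘ₗ LinearMap.snd ℤ M N := by
    ext x <;> simp
  rw [← GM_id x, h3, GM_add, GM_comp, GM_comp, h1, h2, map_zero, map_zero, add_zero]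

theorem pair_split (x : GO (M × N)) :
    ∃ (u : GO M) (v : GO N), x = GM (LinearMap.fst ℤ M N) u + GM (LinearMap.snd ℤ M N) v := by
  have h3 : (LinearMap.id : M × N →ₗ[ℤ] M × N) =
      LinearMap.inl ℤ M N ∘ₗ LinearMap.fst ℤ M N + LinearMap.inr ℤ M N ∘ₗ LinearMap.snd ℤ M N := by
    ext x <;> simp
  refine ⟨GM (LinearMap.inl ℤ M N) x, GM (LinearMap.inr ℤ M N) x, ?_⟩
  conv_lhs => rw [← GM_id x, h3, GM_add, GM_comp, GM_comp]

variable {A : Type} [AddCommGroup A]

/-- the subgroup attached to a subgroup -/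
def gg (H : Submodule ℤ A) : AddSubgroup (GO A) := (GM H.subtype).toAddMonoidHom.ker

theorem mem_gg {H : Submodule ℤ A} {x : GO A} : x ∈ gg H ↔ GM H.subtype x = 0 := Iff.rfl

theorem mem_gg' {H : Submodule ℤ A} {x : GO A} : x ∈ gg H ↔ ∃ y, GM H.mkQ y = x := by
  rw [mem_gg]
  exact GM_exact (f := H.subtype) (g := H.mkQ) (LinearMap.exact_subtype_mkQ H) x

theorem gg_anti {H K : Submodule ℤ A} (h : H ≤ K) : gg K ≤ gg H := by
  intro x hx
  rw [mem_gg] at hx ⊢
  have : H.subtype = K.subtype ∘ₗ Submodule.inclusion h := by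
    ext; rfl
  rw [this, GM_comp, hx, map_zero]

theorem gg_sup (H K : Submodule ℤ A) : gg (H ⊔ K) = gg H ⊓ gg K := by
  apply le_antisymm
  · exact le_inf (gg_anti le_sup_left) (gg_anti le_sup_right)
  · rintro x hx
    obtain ⟨hx1, hx2⟩ := AddSubgroup.mem_inf.mp hx
    rw [mem_gg] at hx1 hx2 ⊢
    let i1 := Submodule.inclusion (le_sup_left : H ≤ H ⊔ K)
    let i2 := Submodule.inclusion (le_sup_right : K ≤ H ⊔ K)
    let s : (H × K) →ₗ[ℤ] (H ⊔ K : Submodule ℤ A) := i1.coprod i2
    have hs : Function.Surjective s := by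
      rintro ⟨z, hz⟩
      obtain ⟨a, ha, b, hb, hab⟩ := Submodule.mem_sup.mp hz
      exact ⟨(⟨a, ha⟩, ⟨b, hb⟩), Subtype.ext hab⟩
    have h0 : GM s (GM (H ⊔ K : Submodule ℤ A).subtype x) = 0 := by
      apply pair_zero
      · rw [← GM_comp, ← GM_comp, ← hx1]
        congr 2
        ext z
        simp [s, i1]
      · rw [← GM_comp, ← GM_comp, ← hx2]
        congr 2
        ext z
        simp [s, i2]
    apply GM_surj hs
    rw [h0, map_zero]

theorem gg_inf (H K : Submodule ℤ A) : gg (H ⊓ K) = gg H ⊔ gg K := by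
  apply le_antisymm
  · intro x hx
    rw [mem_gg'] at hx
    obtain ⟨y, rfl⟩ := hx
    let d : (A ⧸ H ⊓ K) →ₗ[ℤ] (A ⧸ H) × (A ⧸ K) :=
      (Submodule.factor inf_le_left).prod (Submodule.factor inf_le_right)
    have hd : Function.Injective d := by
      rw [← LinearMap.ker_eq_bot, Submodule.eq_bot_iff]
      intro z hz
      obtain ⟨a, rfl⟩ := Submodule.mkQ_surjective _ z
      have h1 : d ((H ⊓ K).mkQ a) = (H.mkQ a, K.mkQ a) := rfl
      rw [LinearMap.mem_ker, h1, Prod.mk_eq_zero] at hz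
      rw [Submodule.mkQ_apply, Submodule.Quotient.mk_eq_zero]
      exact ⟨(Submodule.Quotient.mk_eq_zero _).mp hz.1, (Submodule.Quotient.mk_eq_zero _).mp hz.2⟩
    obtain ⟨w, rfl⟩ := GM_inj hd y
    obtain ⟨u, v, rfl⟩ := pair_split w
    rw [map_add, map_add]
    refine AddSubgroup.add_mem _ (AddSubgroup.mem_sup_left ?_) (AddSubgroup.mem_sup_right ?_)
    · rw [mem_gg', ← GM_comp, ← GM_comp]
      exact ⟨u, rfl⟩
    · rw [mem_gg', ← GM_comp, ← GM_comp]
      exact ⟨v, rfl⟩
  · exact sup_le (gg_anti inf_le_left) (gg_anti inf_le_right)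

theorem le_of_gg_le {H K : Submodule ℤ A} (h : gg H ≤ gg K) : K ≤ H := by
  have h1 : H.mkQ ∘ₗ K.subtype = 0 := by
    rw [← GM_zero_iff]
    intro x
    rw [GM_comp]
    exact h (mem_gg'.mpr ⟨x, rfl⟩)
  intro x hx
  have h2 := LinearMap.congr_fun h1 ⟨x, hx⟩
  simpa using h2

end

/-- For every sublattice of the subgroup lattice of an abelian group the dual embeds as well. -/
theorem dual (L : Type) [Lattice L]
    (h : ∃ (A : Type) (_ : AddCommGroup A), ∃ f : LatticeHom L (AddSubgroup A),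
      Function.Injective f) :
    ∃ (B : Type) (_ : AddCommGroup B), ∃ g : LatticeHom Lᵒᵈ (AddSubgroup B),
      Function.Injective g := by
  obtain ⟨A, _, f, hf⟩ := h
  let e := AddSubgroup.toIntSubmodule (M := A)
  have hinj : ∀ x y : L, gg (e (f x)) = gg (e (f y)) → x = y := by
    intro x y hxy
    apply hf
    apply e.injective
    exact le_antisymm (le_of_gg_le hxy.ge) (le_of_gg_le hxy.le)
  let g : LatticeHom Lᵒᵈ (AddSubgroup (GO A)) :=
    { toFun := fun x => gg (e (f (OrderDual.ofDual x)))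
      map_sup' := by
        intro x y
        rw [ofDual_sup, InfHomClass.map_inf, map_inf, gg_inf]
      map_inf' := by
        intro x y
        rw [ofDual_inf, SupHomClass.map_sup, map_sup, gg_sup] }
  exact cut g fun x y hxy => hinj _ _ hxy

end Pool.Agent.N865.FM
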